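import Mathlib
import Pool.Agent.W913.PRD

set_option autoImplicit false

/-! # Constantly many fixed integers, nearly all of order `≥ p ^ (1 - ε)` for almost all primes -/

namespace Pool.Agent.Results.MP_18a8a6_lc.ConstantList

open Finset

/-- the order of `g` modulo `p` is less than `p ^ (1 - ε)` (also counted: `g` divisible by `p`) -/
def Low (ε : ℝ) (g p : ℕ) : Prop := (orderOf (g : ZMod p) : ℝ) < (p : ℝ) ^ (1 - ε)

section aux

open Pool.Agent.W913.PR Filter

open Classical in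
theorem low_mono {ε : ℝ} (hε : 0 < ε) {g p : ℕ} (hp : p.Prime) (h : Low ε g p) :
    Pool.Agent.W913.PR.Low (ε / 2) g p := by
  refine lt_of_lt_of_le h (Real.rpow_le_rpow_of_exponent_le ?_ (by linarith))
  exact_mod_cast hp.one_le

open Classical in
theorem partE (ε : ℝ) (hε : 0 < ε) (hε1 : ε < 1) (G : Finset ℕ) (hG : G.Nonempty) (x₀ : ℕ)
    (hx₀ : ∀ x : ℕ, x₀ ≤ x →
        (#{p ∈ range (x + 1) | p.Prime ∧ ε / 2 * #G <
          #{g ∈ G | Pool.Agent.W913.PR.Low (ε / 2) g p}} : ℝ) ≤ (x : ℝ) ^ (1 - ε / 2 / 4) ∧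
        ∀ P : Finset ℕ, (∀ p ∈ P, p.Prime ∧ p ≤ x) → (x : ℝ) ^ (1 - ε / 2 / 8) ≤ #P →
          (#{g ∈ G | ε / 2 * #P < #{p ∈ P | Pool.Agent.W913.PR.Low (ε / 2) g p}} : ℝ) ≤
            ε / 2 * #G) :
    ∃ g ∈ G, ∀ N₁ : ℕ, ∃ N : ℕ, N₁ ≤ N ∧
      (#((range N).filter (fun n : ℕ => ε * (Nat.primeCounting (2 ^ n) : ℝ) <
        #((range (2 ^ n + 1)).filter (fun p : ℕ => p.Prime ∧ Low ε g p)))) : ℝ) ≤ ε * N := by
  have hG0 : (0 : ℝ) < #G := by exact_mod_cast card_pos.2 hG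
  have hpow : Tendsto (fun n : ℕ => 2 ^ n) atTop (atTop : Filter ℕ) :=
    tendsto_pow_atTop_atTop_of_one_lt (by norm_num)
  obtain ⟨n₀, hn₀⟩ := eventually_atTop.1 (hpow.eventually
    ((pi_large (1 - ε / 2 / 8) (by linarith)).and (eventually_ge_atTop x₀)))
  set Bad : ℕ → ℕ → Prop := fun g n => ε * (Nat.primeCounting (2 ^ n) : ℝ) <
        #((range (2 ^ n + 1)).filter (fun p : ℕ => p.Prime ∧ Low ε g p)) with hBad
  have hgood : ∀ n : ℕ, n₀ ≤ n → (#{g ∈ G | Bad g n} : ℝ) ≤ ε / 2 * #G := by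
    intro n hn
    obtain ⟨h1, h2⟩ := hn₀ n hn
    set P := (range (2 ^ n + 1)).filter Nat.Prime with hP
    have hPc : #P = Nat.primeCounting (2 ^ n) := by
      rw [Nat.primeCounting, Nat.primeCounting', Nat.count_eq_card_filter_range]
    have h3 := (hx₀ (2 ^ n) h2).2 P (fun p hp => by
      obtain ⟨h4, h5⟩ := mem_filter.1 hp
      exact ⟨h5, Nat.lt_succ_iff.1 (mem_range.1 h4)⟩) (by rw [hPc]; exact h1)
    refine le_trans (Nat.cast_le.2 (card_le_card ?_)) h3
    intro g hg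
    obtain ⟨h6, h7⟩ := mem_filter.1 hg
    refine mem_filter.2 ⟨h6, ?_⟩
    rw [hPc]
    have h8 : (0 : ℝ) ≤ Nat.primeCounting (2 ^ n) := Nat.cast_nonneg _
    refine lt_of_le_of_lt (by nlinarith) (lt_of_lt_of_le h7 (Nat.cast_le.2 (card_le_card ?_)))
    intro p hp
    obtain ⟨h9, h10, h11⟩ := mem_filter.1 hp
    exact mem_filter.2 ⟨mem_filter.2 ⟨h9, h10⟩, low_mono hε h10 h11⟩
  have hN : ∀ N : ℕ, 2 * n₀ / ε ≤ N → ∃ g ∈ G, (#((range N).filter (fun n => Bad g n)) : ℝ) ≤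
      ε * N := by
    intro N hN
    by_contra hcon
    push Not at hcon
    have hsum : ∑ g ∈ G, (#((range N).filter (fun n => Bad g n)) : ℝ) =
        ∑ n ∈ range N, (#{g ∈ G | Bad g n} : ℝ) := by
      simp only [card_filter, Nat.cast_sum]
      exact sum_comm
    have h1 : ∑ n ∈ range N, (#{g ∈ G | Bad g n} : ℝ) ≤ N * (ε / 2 * #G) + n₀ * #G := by
      calc ∑ n ∈ range N, (#{g ∈ G | Bad g n} : ℝ)
          ≤ ∑ n ∈ range N, (ε / 2 * #G + if n < n₀ then (#G : ℝ) else 0) := by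
            refine sum_le_sum fun n _ => ?_
            split_ifs with h
            · have : (#{g ∈ G | Bad g n} : ℝ) ≤ #G := by exact_mod_cast card_filter_le _ _
              nlinarith
            · rw [add_zero]; exact hgood n (by omega)
        _ = N * (ε / 2 * #G) + #((range N).filter (fun n => n < n₀)) * #G := by
            rw [sum_add_distrib, sum_const, card_range, nsmul_eq_mul, ← sum_filter, sum_const,
              nsmul_eq_mul]
        _ ≤ _ := by
            gcongr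
            calc #((range N).filter (fun n => n < n₀)) ≤ #(range n₀) :=
                  card_le_card fun n hn => mem_range.2 (mem_filter.1 hn).2
              _ = n₀ := card_range _
    have h2 : ∑ g ∈ G, (ε * N : ℝ) < ∑ g ∈ G, (#((range N).filter (fun n => Bad g n)) : ℝ) :=
      sum_lt_sum_of_nonempty hG hcon
    rw [sum_const, nsmul_eq_mul, hsum] at h2
    have h3 := lt_of_lt_of_le h2 h1
    rw [div_le_iff₀ hε] at hN
    have h4 : (n₀ : ℝ) * #G ≤ (N * (ε / 2)) * #G := by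
      apply mul_le_mul_of_nonneg_right _ hG0.le
      linarith
    nlinarith
  by_contra hcon
  push Not at hcon
  choose! f hf using hcon
  obtain ⟨g, hg, h7⟩ := hN (max ⌈2 * n₀ / ε⌉₊ (∑ g ∈ G, f g)) (by
    push_cast
    exact le_trans (Nat.le_ceil _) (le_max_left _ _))
  have h8 := hf g hg (max ⌈2 * n₀ / ε⌉₊ (∑ g ∈ G, f g)) (le_trans
    (single_le_sum (f := f) (fun _ _ => Nat.zero_le _) hg) (le_max_right _ _))
  linarith

end aux

open Classical in
/-- For every `0 < ε < 1` there is a finite nonempty set `G` of natural numbers such that: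
(i) for all large `x` and all but at most `x ^ (1 - ε / 8)` primes `p ≤ x`, all but at most `ε |G|`
of the `g ∈ G` have order `≥ p ^ (1 - ε)` modulo `p`;
(ii) for all large `x` and every set `P` of at least `x ^ (1 - ε / 16)` primes `≤ x`, all but at
most `ε |G|` of the `g ∈ G` have order `≥ p ^ (1 - ε)` modulo `p` for all but at most `ε |P|` of the
`p ∈ P`;
(iii) some `g ∈ G` has the following property for infinitely many `N`: for all but at most `ε N` of
the `n < N`, `g` has order `≥ p ^ (1 - ε)` modulo `p` for all but at most `ε π(2 ^ n)` of the primes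
`p ≤ 2 ^ n`. -/
theorem result (ε : ℝ) (hε : 0 < ε) (hε1 : ε < 1) :
    ∃ G : Finset ℕ, G.Nonempty ∧
      (∃ x₀ : ℕ, ∀ x : ℕ, x₀ ≤ x →
        (#((range (x + 1)).filter (fun p : ℕ => p.Prime ∧
          ε * #G < #(G.filter (fun g : ℕ => Low ε g p)))) : ℝ) ≤ (x : ℝ) ^ (1 - ε / 8) ∧
        ∀ P : Finset ℕ, (∀ p ∈ P, p.Prime ∧ p ≤ x) → (x : ℝ) ^ (1 - ε / 16) ≤ #P →
          (#(G.filter (fun g : ℕ => ε * #P < #(P.filter (fun p : ℕ => Low ε g p)))) : ℝ) ≤
            ε * #G) ∧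
      ∃ g ∈ G, ∀ N₁ : ℕ, ∃ N : ℕ, N₁ ≤ N ∧
        (#((range N).filter (fun n : ℕ => ε * (Nat.primeCounting (2 ^ n) : ℝ) <
          #((range (2 ^ n + 1)).filter (fun p : ℕ => p.Prime ∧ Low ε g p)))) : ℝ) ≤ ε * N := by
  obtain ⟨G, hG, x₀, h⟩ := Pool.Agent.W913.PR.partB (ε / 2) (by linarith) (by linarith)
  have hG0 : (0 : ℝ) ≤ #G := Nat.cast_nonneg _
  refine ⟨G, hG, ⟨x₀, fun x hx => ⟨?_, fun P hP hPc => ?_⟩⟩, partE ε hε hε1 G hG x₀ h⟩
  · have e : 1 - ε / 8 = 1 - ε / 2 / 4 := by ring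
    rw [e]
    refine le_trans (Nat.cast_le.2 (card_le_card ?_)) (h x hx).1
    intro p hp
    obtain ⟨h1, h2, h3⟩ := mem_filter.1 hp
    refine mem_filter.2 ⟨h1, h2, lt_of_le_of_lt (by nlinarith)
      (lt_of_lt_of_le h3 (Nat.cast_le.2 (card_le_card ?_)))⟩
    intro g hg
    exact mem_filter.2 ⟨(mem_filter.1 hg).1, low_mono hε h2 (mem_filter.1 hg).2⟩
  · have e : 1 - ε / 16 = 1 - ε / 2 / 8 := by ring
    rw [e] at hPc
    refine le_trans (le_trans (Nat.cast_le.2 (card_le_card ?_)) ((h x hx).2 P hP hPc))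
      (by nlinarith)
    intro g hg
    obtain ⟨h1, h2⟩ := mem_filter.1 hg
    have hP0 : (0 : ℝ) ≤ #P := Nat.cast_nonneg _
    refine mem_filter.2 ⟨h1, lt_of_le_of_lt (by nlinarith)
      (lt_of_lt_of_le h2 (Nat.cast_le.2 (card_le_card ?_)))⟩
    intro p hp
    exact mem_filter.2 ⟨(mem_filter.1 hp).1, low_mono hε (hP p (mem_filter.1 hp).1).1
      (mem_filter.1 hp).2⟩

end Pool.Agent.Results.MP_18a8a6_lc.ConstantList
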