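import Mathlib

set_option autoImplicit false

/-! # Generic algorithms for a generator: the exact trade-off between random seeds and errors -/

namespace Pool.Agent.Results.MP_18a8a6_lc.GenericSeeds

/-- The table of answers to all equality tests between the entries of a list. -/
def table {α : Type} (eq : α → α → Bool) (l : List α) : List (List Bool) :=
  l.map fun w => l.map fun w' => eq w w'

/-- The exponent vectors asked for by the algorithm `act` in its first `k` steps, when the equality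
tests are answered by `eq`.  In each step the next exponent vector is a function of the answers to
all the equality tests between the elements obtained so far. -/
def hist (act : List (List Bool) → ℤ × ℤ) (eq : ℤ × ℤ → ℤ × ℤ → Bool) : ℕ → List (ℤ × ℤ)
  | 0 => []
  | k + 1 => hist act eq k ++ [act (table eq (hist act eq k))]

/-- the output of the algorithm after `q` steps: one more exponent vector -/
def output (act : List (List Bool) → ℤ × ℤ) (eq : ℤ × ℤ → ℤ × ℤ → Bool) (q : ℕ) : ℤ × ℤ :=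
  act (table eq (hist act eq q))

open Classical in
/-- the equality test in a group `G`, for given elements `g`, `h` -/
noncomputable def groupEq {G : Type} [Group G] (g h : G) (w w' : ℤ × ℤ) : Bool :=
  decide (g ^ w.1 * h ^ w.2 = g ^ w'.1 * h ^ w'.2)

/-- the equality test of the free run: congruence of both coordinates modulo `R` and of the sum of
the coordinates modulo `S` -/
def freeEq (R S : ℕ) (w w' : ℤ × ℤ) : Bool :=
  decide ((R : ℤ) ∣ w.1 - w'.1 ∧ (R : ℤ) ∣ w.2 - w'.2 ∧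
    (S : ℤ) ∣ (w.1 + w.2) - (w'.1 + w'.2))

section aux

theorem hist_sub {act : List (List Bool) → ℤ × ℤ} {eq : ℤ × ℤ → ℤ × ℤ → Bool} {k m : ℕ}
    (h : k ≤ m) : ∀ w ∈ hist act eq k, w ∈ hist act eq m := by
  induction m, h using Nat.le_induction with
  | base => intro w hw; exact hw
  | succ m _ ih => intro w hw; rw [hist, List.mem_append]; exact Or.inl (ih w hw)

theorem length_hist (act : List (List Bool) → ℤ × ℤ) (eq : ℤ × ℤ → ℤ × ℤ → Bool) (k : ℕ) :
    (hist act eq k).length = k := by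
  induction k with
  | zero => rfl
  | succ k ih => rw [hist, List.length_append, ih]; rfl

theorem hist_congr {act : List (List Bool) → ℤ × ℤ} {eq eq' : ℤ × ℤ → ℤ × ℤ → Bool} {m : ℕ}
    (h : ∀ w ∈ hist act eq m, ∀ w' ∈ hist act eq m, eq w w' = eq' w w') :
    ∀ k ≤ m, hist act eq k = hist act eq' k := by
  intro k
  induction k with
  | zero => intro _; rfl
  | succ k ih =>
    intro hk
    have h1 := ih (by omega)
    rw [hist, hist, ← h1]
    congr 3
    unfold table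
    refine List.map_congr_left fun w hw => List.map_congr_left fun w' hw' => ?_
    exact h w (hist_sub (by omega) w hw) w' (hist_sub (by omega) w' hw')

theorem out_congr {act : List (List Bool) → ℤ × ℤ} {eq eq' : ℤ × ℤ → ℤ × ℤ → Bool} {q : ℕ}
    (h : ∀ w ∈ hist act eq (q + 1), ∀ w' ∈ hist act eq (q + 1), eq w w' = eq' w w') :
    output act eq' q = output act eq q := by
  unfold output
  rw [← hist_congr (m := q + 1) h q (by omega)]
  congr 1
  unfold table
  refine List.map_congr_left fun w hw => List.map_congr_left fun w' hw' => ?_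
  exact (h w (hist_sub (by omega) w hw) w' (hist_sub (by omega) w' hw')).symm

theorem pow_split (r e : ℕ) (D : ℤ × ℤ) :
    (((r ^ e : ℕ) : ℤ) ∣ D.1 ∧ ((r ^ e : ℕ) : ℤ) ∣ D.2) ∨
      ∃ v : ℕ, v < e ∧ ∃ u : ℤ × ℤ, D.1 = ((r ^ v : ℕ) : ℤ) * u.1 ∧ D.2 = ((r ^ v : ℕ) : ℤ) * u.2 ∧
        ¬ ((r : ℤ) ∣ u.1 ∧ (r : ℤ) ∣ u.2) := by
  induction e with
  | zero => left; simp
  | succ e ih =>
    rcases ih with ⟨⟨a, ha⟩, ⟨b, hb⟩⟩ | ⟨v, hv, u, h1, h2, h3⟩
    · by_cases h : (r : ℤ) ∣ a ∧ (r : ℤ) ∣ b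
      · left
        obtain ⟨⟨a', ha'⟩, ⟨b', hb'⟩⟩ := h
        constructor
        · exact ⟨a', by rw [ha, ha']; push_cast; ring⟩
        · exact ⟨b', by rw [hb, hb']; push_cast; ring⟩
      · right
        exact ⟨e, Nat.lt_succ_self e, (a, b), ha, hb, h⟩
    · right
      exact ⟨v, Nat.lt_succ_of_lt hv, u, h1, h2, h3⟩

/-- a slope avoiding all the differences of a list of vectors modulo powers of a large prime -/
theorem exists_slope (l : List (ℤ × ℤ)) (r e : ℕ) [Fact r.Prime] (hr : l.length ^ 2 < r) :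
    ∃ s : ℕ, ∀ w ∈ l, ∀ w' ∈ l,
      ((r ^ e : ℕ) : ℤ) ∣ (w.1 - w'.1) * ((1 : ℕ) : ℤ) + (w.2 - w'.2) * (s : ℤ) →
        ((r ^ e : ℕ) : ℤ) ∣ w.1 - w'.1 ∧ ((r ^ e : ℕ) : ℤ) ∣ w.2 - w'.2 := by
  classical
  have hrp : r.Prime := Fact.out
  have hch : ∀ p : (ℤ × ℤ) × (ℤ × ℤ), ∃ u : ℤ × ℤ,
      (((r ^ e : ℕ) : ℤ) ∣ p.1.1 - p.2.1 ∧ ((r ^ e : ℕ) : ℤ) ∣ p.1.2 - p.2.2) ∨
      ∃ v : ℕ, v < e ∧ p.1.1 - p.2.1 = ((r ^ v : ℕ) : ℤ) * u.1 ∧
        p.1.2 - p.2.2 = ((r ^ v : ℕ) : ℤ) * u.2 ∧ ¬ ((r : ℤ) ∣ u.1 ∧ (r : ℤ) ∣ u.2) := by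
    intro p
    rcases pow_split r e (p.1.1 - p.2.1, p.1.2 - p.2.2) with h | ⟨v, hv, u, h1, h2, h3⟩
    · exact ⟨(0, 0), Or.inl h⟩
    · exact ⟨u, Or.inr ⟨v, hv, h1, h2, h3⟩⟩
  choose u hu using hch
  let f : (ℤ × ℤ) × (ℤ × ℤ) → ZMod r := fun p => - ((u p).1 : ZMod r) / ((u p).2 : ZMod r)
  let B : Finset (ZMod r) := (l.toFinset ×ˢ l.toFinset).image f
  have hB : B.card < (Finset.univ : Finset (ZMod r)).card := by
    rw [Finset.card_univ, ZMod.card]
    refine lt_of_le_of_lt (Finset.card_image_le.trans ?_) hr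
    rw [Finset.card_product, pow_two]
    exact Nat.mul_le_mul (List.toFinset_card_le l) (List.toFinset_card_le l)
  obtain ⟨s, -, hs⟩ := Finset.exists_mem_notMem_of_card_lt_card hB
  refine ⟨s.val, fun w hw w' hw' h => ?_⟩
  rcases hu (w, w') with h1 | ⟨v, hv, h1, h2, h3⟩
  · exact h1
  · exfalso
    simp only at h1 h2
    rw [h1, h2] at h
    -- divide by r ^ v
    have h4 : (r : ℤ) ∣ (u (w, w')).1 + (u (w, w')).2 * (s.val : ℤ) := by
      have e1 : ((r ^ e : ℕ) : ℤ) = ((r ^ v : ℕ) : ℤ) * ((r ^ (e - v) : ℕ) : ℤ) := by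
        rw [← Nat.cast_mul, ← pow_add]; congr 2; omega
      have e2 : ((r ^ v : ℕ) : ℤ) * (u (w, w')).1 * ((1 : ℕ) : ℤ) +
          ((r ^ v : ℕ) : ℤ) * (u (w, w')).2 * (s.val : ℤ) =
          ((r ^ v : ℕ) : ℤ) * ((u (w, w')).1 + (u (w, w')).2 * (s.val : ℤ)) := by
        push_cast; ring
      rw [e1, e2] at h
      have h5 := Int.dvd_of_mul_dvd_mul_left (by
        have := pow_pos hrp.pos v
        exact_mod_cast this.ne') h
      refine dvd_trans ?_ h5
      exact Int.natCast_dvd_natCast.2 (dvd_pow_self r (by omega))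
    have h5 : ((u (w, w')).1 : ZMod r) + ((u (w, w')).2 : ZMod r) * s = 0 := by
      have := (ZMod.intCast_zmod_eq_zero_iff_dvd _ _).2 h4
      push_cast at this
      simpa only [ZMod.natCast_val, ZMod.cast_id', id_eq] using this
    by_cases h6 : ((u (w, w')).2 : ZMod r) = 0
    · rw [h6, zero_mul, add_zero] at h5
      exact h3 ⟨(ZMod.intCast_zmod_eq_zero_iff_dvd _ _).1 h5,
        (ZMod.intCast_zmod_eq_zero_iff_dvd _ _).1 h6⟩
    · apply hs
      rw [Finset.mem_image]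
      refine ⟨(w, w'), ?_, ?_⟩
      · rw [Finset.mem_product]
        exact ⟨List.mem_toFinset.2 hw, List.mem_toFinset.2 hw'⟩
      · change - ((u (w, w')).1 : ZMod r) / ((u (w, w')).2 : ZMod r) = s
        rw [div_eq_iff h6]
        linear_combination (-1 : ZMod r) * h5

theorem pow_dvd_all {R : ℕ} (hR : R ≠ 0) (d : ℤ)
    (h : ∀ r : ℕ, r.Prime → r ∣ R → ((r ^ R.factorization r : ℕ) : ℤ) ∣ d) : (R : ℤ) ∣ d := by
  rw [Int.natCast_dvd, Nat.dvd_iff_prime_pow_dvd_dvd]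
  intro p k hp hk
  rcases Nat.eq_zero_or_pos k with h0 | h0
  · rw [h0, pow_zero]; exact one_dvd _
  · have h1 : p ∣ R := (dvd_pow_self p h0.ne').trans hk
    have h2 := Int.natCast_dvd.1 (h p hp h1)
    exact (pow_dvd_pow p ((hp.pow_dvd_iff_le_factorization hR).1 hk)).trans h2

/-- a generating pair with prescribed directions modulo the prime factors of `R` -/
theorem core {G : Type} [CommGroup G] [Finite G] [IsCyclic G] (R S : ℕ)
    (hG : Nat.card G = R * S) (hRS : Nat.Coprime R S) (hR0' : R ≠ 0) (ab : ℕ → ℕ × ℕ)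
    (hab : ∀ r : ℕ, r.Prime → r ∣ R → (((ab r).1 : ZMod r) ≠ 0 ∨ ((ab r).2 : ZMod r) ≠ 0)) :
    ∃ g h : G, Subgroup.closure {g, h} = ⊤ ∧
      (∀ w w' : ℤ × ℤ, g ^ w.1 * h ^ w.2 = g ^ w'.1 * h ^ w'.2 ↔
        (∀ r : ℕ, r.Prime → r ∣ R → ((r ^ R.factorization r : ℕ) : ℤ) ∣
          (w.1 - w'.1) * ((ab r).1 : ℤ) + (w.2 - w'.2) * ((ab r).2 : ℤ)) ∧
          (S : ℤ) ∣ (w.1 + w.2) - (w'.1 + w'.2)) ∧
      (∀ (w : ℤ × ℤ) (r : ℕ), r.Prime → r ∣ R →
        ((w.1 : ℤ) : ZMod r) * (ab r).1 + ((w.2 : ℤ) : ZMod r) * (ab r).2 = 0 →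
          ¬ R ∣ orderOf (g ^ w.1 * h ^ w.2)) := by
  classical
  have hR0 : 0 < R := Nat.pos_of_ne_zero hR0'
  have hS0 : 0 < S := by
    rcases Nat.eq_zero_or_pos S with h | h
    · rw [h, mul_zero] at hG
      exact absurd hG Nat.card_pos.ne'
    · exact h
  -- Chinese remainder
  have hcop : Set.Pairwise (R.primeFactors : Set ℕ)
      (Function.onFun Nat.Coprime (fun r => r ^ R.factorization r)) := by
    intro a ha b hb hne
    exact Nat.Coprime.pow _ _ ((Nat.coprime_primes (Nat.prime_of_mem_primeFactors ha)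
      (Nat.prime_of_mem_primeFactors hb)).2 hne)
  have hne0 : ∀ i ∈ R.primeFactors, i ^ R.factorization i ≠ 0 := fun i hi =>
    pow_ne_zero _ (Nat.prime_of_mem_primeFactors hi).ne_zero
  obtain ⟨x₀, hx₀⟩ := Nat.chineseRemainderOfFinset (fun r => (ab r).1)
    (fun r => r ^ R.factorization r) R.primeFactors hne0 hcop
  obtain ⟨y₀, hy₀⟩ := Nat.chineseRemainderOfFinset (fun r => (ab r).2)
    (fun r => r ^ R.factorization r) R.primeFactors hne0 hcop
  obtain ⟨x, hxR, hxS⟩ := Nat.chineseRemainder hRS x₀ 1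
  obtain ⟨y, hyR, hyS⟩ := Nat.chineseRemainder hRS y₀ 1
  have hxe : ∀ r : ℕ, r.Prime → r ∣ R → ((r ^ R.factorization r : ℕ) : ℤ) ∣ x - (ab r).1 := by
    intro r hr hrR
    exact (Nat.modEq_iff_dvd.1 ((hxR.of_dvd (Nat.ordProj_dvd R r)).trans
      (hx₀ r (Nat.mem_primeFactors.2 ⟨hr, hrR, hR0.ne'⟩))).symm)
  have hye : ∀ r : ℕ, r.Prime → r ∣ R → ((r ^ R.factorization r : ℕ) : ℤ) ∣ y - (ab r).2 := by
    intro r hr hrR
    exact (Nat.modEq_iff_dvd.1 ((hyR.of_dvd (Nat.ordProj_dvd R r)).trans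
      (hy₀ r (Nat.mem_primeFactors.2 ⟨hr, hrR, hR0.ne'⟩))).symm)
  have hre : ∀ r : ℕ, r.Prime → r ∣ R → (r : ℤ) ∣ ((r ^ R.factorization r : ℕ) : ℤ) := by
    intro r hr hrR
    exact Int.natCast_dvd_natCast.2 (dvd_pow_self r
      (hr.factorization_pos_of_dvd hR0.ne' hrR).ne')
  have hxr : ∀ r : ℕ, r.Prime → r ∣ R → (x : ZMod r) = (ab r).1 := by
    intro r hr hrR
    have h1 := (ZMod.intCast_zmod_eq_zero_iff_dvd _ _).2 ((hre r hr hrR).trans (hxe r hr hrR))
    push_cast at h1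
    exact sub_eq_zero.1 h1
  have hyr : ∀ r : ℕ, r.Prime → r ∣ R → (y : ZMod r) = (ab r).2 := by
    intro r hr hrR
    have h1 := (ZMod.intCast_zmod_eq_zero_iff_dvd _ _).2 ((hre r hr hrR).trans (hye r hr hrR))
    push_cast at h1
    exact sub_eq_zero.1 h1
  have hxS' : (S : ℤ) ∣ (x : ℤ) - 1 := by
    have := (Nat.modEq_iff_dvd.1 hxS.symm)
    exact_mod_cast this
  have hyS' : (S : ℤ) ∣ (y : ℤ) - 1 := by
    have := (Nat.modEq_iff_dvd.1 hyS.symm)
    exact_mod_cast this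
  -- the generating pair
  obtain ⟨γ, hγ⟩ := IsCyclic.exists_generator (α := G)
  have hγo : orderOf γ = R * S := by rw [orderOf_eq_card_of_forall_mem_zpowers hγ, hG]
  set g := γ ^ x with hg
  set h := γ ^ y with hh
  have hpow : ∀ w : ℤ × ℤ, g ^ w.1 * h ^ w.2 = γ ^ (w.1 * x + w.2 * y) := by
    intro w
    rw [hg, hh, ← zpow_natCast, ← zpow_natCast, ← zpow_mul, ← zpow_mul, ← zpow_add]
    congr 1; ring
  have hgen : Subgroup.closure {g, h} = ⊤ := by
    -- gcd(x, y, RS) = 1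
    have hgcd : Nat.gcd (Nat.gcd x y) (R * S) = 1 := by
      by_contra hc
      obtain ⟨r, hr, hrd⟩ := Nat.exists_prime_and_dvd hc
      have h1 : r ∣ x := (hrd.trans (Nat.gcd_dvd_left _ _)).trans (Nat.gcd_dvd_left _ _)
      have h2 : r ∣ y := (hrd.trans (Nat.gcd_dvd_left _ _)).trans (Nat.gcd_dvd_right _ _)
      rcases (hr.dvd_mul).1 (hrd.trans (Nat.gcd_dvd_right _ _)) with h3 | h3
      · have h4 := hxr r hr h3
        have h5 := hyr r hr h3
        rw [(ZMod.natCast_eq_zero_iff x r).2 h1] at h4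
        rw [(ZMod.natCast_eq_zero_iff y r).2 h2] at h5
        rcases (hab r hr h3) with h6 | h6
        · exact h6 h4.symm
        · exact h6 h5.symm
      · have h4 : (r : ℤ) ∣ 1 := by
          have h5 : (r : ℤ) ∣ (x : ℤ) - 1 := (Int.natCast_dvd_natCast.2 h3).trans hxS'
          have h6 : (r : ℤ) ∣ (x : ℤ) := Int.natCast_dvd_natCast.2 h1
          have := dvd_sub h6 h5
          simpa using this
        have h5 : r ∣ 1 := by exact_mod_cast h4
        exact hr.one_lt.ne' (Nat.dvd_one.1 h5)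
    -- Bezout
    have hb : ∃ u v k : ℤ, u * x + v * y + k * ((R * S : ℕ) : ℤ) = 1 := by
      have e1 := Nat.gcd_eq_gcd_ab (Nat.gcd x y) (R * S)
      have e2 := Nat.gcd_eq_gcd_ab x y
      rw [hgcd, e2] at e1
      refine ⟨Nat.gcdA x y * Nat.gcdA (Nat.gcd x y) (R * S),
        Nat.gcdB x y * Nat.gcdA (Nat.gcd x y) (R * S), Nat.gcdB (Nat.gcd x y) (R * S), ?_⟩
      push_cast at e1 ⊢
      rw [e1]; ring
    obtain ⟨u, v, k, huv⟩ := hb
    have hγmem : γ ∈ Subgroup.closure ({g, h} : Set G) := by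
      have e : γ = g ^ u * h ^ v := by
        have e1 : γ ^ (((R * S : ℕ) : ℤ)) = 1 := by
          rw [zpow_natCast, ← hγo, pow_orderOf_eq_one]
        rw [hpow (u, v)]
        have : (u * x + v * y : ℤ) = 1 - k * ((R * S : ℕ) : ℤ) := by linarith
        simp only
        rw [this, zpow_sub, zpow_one, mul_comm k, zpow_mul, e1, one_zpow, inv_one, mul_one]
      rw [e]
      exact Subgroup.mul_mem _ (Subgroup.zpow_mem _ (Subgroup.subset_closure (by simp)) _)
        (Subgroup.zpow_mem _ (Subgroup.subset_closure (by simp)) _)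
    rw [eq_top_iff]
    intro z _
    obtain ⟨n, rfl⟩ := Subgroup.mem_zpowers_iff.1 (hγ z)
    exact Subgroup.zpow_mem _ hγmem n
  refine ⟨g, h, hgen, fun w w' => ?_, fun w r hr hrR h0 hfin => ?_⟩
  · rw [hpow, hpow]
    have e1 : γ ^ (w.1 * x + w.2 * y) = γ ^ (w'.1 * x + w'.2 * y) ↔
        ((R * S : ℕ) : ℤ) ∣ (w.1 - w'.1) * x + (w.2 - w'.2) * y := by
      rw [← hγo, orderOf_dvd_iff_zpow_eq_one, ← mul_inv_eq_one, ← zpow_neg, ← zpow_add]
      have : w.1 * x + w.2 * y + -(w'.1 * x + w'.2 * y) =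
          (w.1 - w'.1) * x + (w.2 - w'.2) * (y : ℤ) := by ring
      rw [this]
    rw [e1]
    have hmodS : (S : ℤ) ∣ (w.1 - w'.1) * x + (w.2 - w'.2) * y ↔
        (S : ℤ) ∣ (w.1 + w.2) - (w'.1 + w'.2) := by
      have e2 : (w.1 - w'.1) * x + (w.2 - w'.2) * (y : ℤ) =
          ((w.1 + w.2) - (w'.1 + w'.2)) + ((w.1 - w'.1) * ((x : ℤ) - 1) +
            (w.2 - w'.2) * ((y : ℤ) - 1)) := by ring
      rw [e2]
      exact dvd_add_left (dvd_add (Dvd.dvd.mul_left hxS' _) (Dvd.dvd.mul_left hyS' _))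
    have hz : ∀ r : ℕ, r.Prime → r ∣ R → (((r ^ R.factorization r : ℕ) : ℤ) ∣
        (w.1 - w'.1) * x + (w.2 - w'.2) * y ↔ ((r ^ R.factorization r : ℕ) : ℤ) ∣
        (w.1 - w'.1) * ((ab r).1 : ℤ) + (w.2 - w'.2) * ((ab r).2 : ℤ)) := by
      intro r hr hrR
      have e2 : (w.1 - w'.1) * (x : ℤ) + (w.2 - w'.2) * (y : ℤ) =
          ((w.1 - w'.1) * ((ab r).1 : ℤ) + (w.2 - w'.2) * ((ab r).2 : ℤ)) +
            ((w.1 - w'.1) * ((x : ℤ) - (ab r).1) + (w.2 - w'.2) * ((y : ℤ) - (ab r).2)) := by ring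
      rw [e2]
      exact dvd_add_left (dvd_add (Dvd.dvd.mul_left (hxe r hr hrR) _)
        (Dvd.dvd.mul_left (hye r hr hrR) _))
    constructor
    · intro hd
      push_cast at hd
      refine ⟨fun r hr hrR => (hz r hr hrR).1 ?_, hmodS.1 ((Dvd.intro_left _ rfl).trans hd)⟩
      exact (Int.natCast_dvd_natCast.2 (Nat.ordProj_dvd R r)).trans ((Dvd.intro _ rfl).trans hd)
    · rintro ⟨h1, h2⟩
      push_cast
      refine IsCoprime.mul_dvd (Nat.isCoprime_iff_coprime.2 hRS) ?_ (hmodS.2 h2)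
      exact pow_dvd_all hR0' _ fun r hr hrR => (hz r hr hrR).2 (h1 r hr hrR)
  · rw [hpow] at hfin
    have h8 : (r : ℤ) ∣ w.1 * x + w.2 * y := by
      apply (ZMod.intCast_zmod_eq_zero_iff_dvd _ _).1
      push_cast
      rw [hxr r hr hrR, hyr r hr hrR]
      exact h0
    obtain ⟨k, hk⟩ := h8
    obtain ⟨Q, hQ⟩ := hrR
    have h9 : (γ ^ (w.1 * x + w.2 * y)) ^ (Q * S) = 1 := by
      rw [hk, ← zpow_natCast, ← zpow_mul]
      have : (r : ℤ) * k * ((Q * S : ℕ) : ℤ) = ((R * S : ℕ) : ℤ) * k := by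
        rw [hQ]; push_cast; ring
      rw [this, zpow_mul, zpow_natCast, ← hγo, pow_orderOf_eq_one, one_zpow]
    have h10 := hfin.trans (orderOf_dvd_of_pow_eq_one h9)
    have h11 := Nat.Coprime.dvd_of_dvd_mul_right hRS h10
    have hQ0 : 0 < Q := by
      rcases Nat.eq_zero_or_pos Q with h | h
      · rw [h, mul_zero] at hQ; omega
      · exact h
    have h12 := Nat.le_of_dvd hQ0 h11
    have h13 := hr.two_le
    nlinarith

/-- a direction orthogonal to a given vector -/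
theorem exists_dir (r : ℕ) [Fact r.Prime] (o : ℤ × ℤ) :
    ∃ ab : ℕ × ℕ, ((ab.1 : ZMod r) ≠ 0 ∨ (ab.2 : ZMod r) ≠ 0) ∧
      ((o.1 : ℤ) : ZMod r) * ab.1 + ((o.2 : ℤ) : ZMod r) * ab.2 = 0 := by
  by_cases h0 : ((o.1 : ℤ) : ZMod r) = 0 ∧ ((o.2 : ℤ) : ZMod r) = 0
  · exact ⟨(1, 0), Or.inl (by simp), by simp [h0.1]⟩
  · refine ⟨((-((o.2 : ℤ) : ZMod r)).val, (((o.1 : ℤ) : ZMod r)).val), ?_, ?_⟩
    · simp only [ZMod.natCast_val, ZMod.cast_id', id_eq]
      by_contra hc
      push Not at hc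
      exact h0 ⟨hc.2, neg_eq_zero.1 hc.1⟩
    · simp only [ZMod.natCast_val, ZMod.cast_id', id_eq]
      ring

theorem kill {G : Type} [CommGroup G] [Finite G] [IsCyclic G] (R S q k : ℕ)
    (hG : Nat.card G = R * S) (hRS : Nat.Coprime R S) (hR : R ≠ 0)
    (hbig : ∀ r : ℕ, r.Prime → r ∣ R → (k * (q + 1)) ^ 2 < r)
    (act : Fin k → List (List Bool) → ℤ × ℤ) (W : Finset ℕ) (dir : ℕ → ℕ × ℕ)
    (hdir : ∀ r : ℕ, r.Prime → r ∣ R → r ∈ W →
      (((dir r).1 : ZMod r) ≠ 0 ∨ ((dir r).2 : ZMod r) ≠ 0))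
    (hcond : ∀ i, ∀ w ∈ hist (act i) (freeEq R S) (q + 1),
      ∀ w' ∈ hist (act i) (freeEq R S) (q + 1),
      (∀ r : ℕ, r.Prime → r ∣ R → r ∈ W → ((r ^ R.factorization r : ℕ) : ℤ) ∣
        (w.1 - w'.1) * ((dir r).1 : ℤ) + (w.2 - w'.2) * ((dir r).2 : ℤ)) →
      (∀ r : ℕ, r.Prime → r ∣ R → r ∉ W → ((r ^ R.factorization r : ℕ) : ℤ) ∣ w.1 - w'.1 ∧
        ((r ^ R.factorization r : ℕ) : ℤ) ∣ w.2 - w'.2) →
        (R : ℤ) ∣ w.1 - w'.1 ∧ (R : ℤ) ∣ w.2 - w'.2) :
    ∃ g h : G, Subgroup.closure {g, h} = ⊤ ∧ ∀ i, ∀ r : ℕ, r.Prime → r ∣ R → r ∈ W →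
      ((output (act i) (freeEq R S) q).1 : ZMod r) * (dir r).1 +
        ((output (act i) (freeEq R S) q).2 : ZMod r) * (dir r).2 = 0 →
      ¬ R ∣ orderOf (g ^ (output (act i) (groupEq g h) q).1 *
        h ^ (output (act i) (groupEq g h) q).2) := by
  classical
  set Hall : List (ℤ × ℤ) :=
    (List.ofFn fun i : Fin k => hist (act i) (freeEq R S) (q + 1)).flatten with hHall
  have hmem : ∀ i, ∀ w ∈ hist (act i) (freeEq R S) (q + 1), w ∈ Hall := by
    intro i w hw
    rw [hHall, List.mem_flatten]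
    exact ⟨_, List.mem_ofFn.2 ⟨i, rfl⟩, hw⟩
  have hlen : Hall.length = k * (q + 1) := by
    rw [hHall, List.length_flatten, List.map_ofFn]
    have : (List.length ∘ fun i : Fin k => hist (act i) (freeEq R S) (q + 1)) =
        fun _ => q + 1 := by
      funext i; simp [length_hist]
    rw [this, List.ofFn_const, List.sum_replicate, smul_eq_mul]
  have hsl : ∀ r : ℕ, ∃ s : ℕ, r.Prime → r ∣ R → ∀ w ∈ Hall, ∀ w' ∈ Hall,
      ((r ^ R.factorization r : ℕ) : ℤ) ∣
        (w.1 - w'.1) * ((1 : ℕ) : ℤ) + (w.2 - w'.2) * (s : ℤ) →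
        ((r ^ R.factorization r : ℕ) : ℤ) ∣ w.1 - w'.1 ∧
          ((r ^ R.factorization r : ℕ) : ℤ) ∣ w.2 - w'.2 := by
    intro r
    by_cases hr : r.Prime ∧ r ∣ R
    · have : Fact r.Prime := ⟨hr.1⟩
      obtain ⟨s, hs⟩ := exists_slope Hall r (R.factorization r)
        (by rw [hlen]; exact hbig r hr.1 hr.2)
      exact ⟨s, fun _ _ => hs⟩
    · exact ⟨0, fun h1 h2 => absurd ⟨h1, h2⟩ hr⟩
  choose s hs using hsl
  obtain ⟨g, h, hgen, heq, hord⟩ := core (G := G) R S hG hRS hR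
    (fun r => if r ∈ W then dir r else (1, s r)) (fun r hr hrR => by
      by_cases hrW : r ∈ W
      · simp only [if_pos hrW]; exact hdir r hr hrR hrW
      · simp only [if_neg hrW]
        have : Fact r.Prime := ⟨hr⟩
        left; simp)
  refine ⟨g, h, hgen, fun i r hr hrR hrW h0 => ?_⟩
  have hcmp : ∀ w ∈ hist (act i) (freeEq R S) (q + 1), ∀ w' ∈ hist (act i) (freeEq R S) (q + 1),
      freeEq R S w w' = groupEq g h w w' := by
    intro w hw w' hw'
    unfold freeEq groupEq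
    rw [decide_eq_decide, heq w w']
    constructor
    · rintro ⟨h1, h2, h3⟩
      refine ⟨fun r hr hrR => ?_, h3⟩
      have e1 : ((r ^ R.factorization r : ℕ) : ℤ) ∣ (R : ℤ) :=
        Int.natCast_dvd_natCast.2 (Nat.ordProj_dvd R r)
      exact dvd_add (Dvd.dvd.mul_right (e1.trans h1) _) (Dvd.dvd.mul_right (e1.trans h2) _)
    · rintro ⟨h1, h2⟩
      have h3 := hcond i w hw w' hw' (fun r hr hrR hrW => by
        have := h1 r hr hrR
        simpa only [if_pos hrW] using this) (fun r hr hrR hrW => by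
        have := h1 r hr hrR
        simp only [if_neg hrW] at this
        exact hs r hr hrR w (hmem i w hw) w' (hmem i w' hw') this)
      exact ⟨h3.1, h3.2, h2⟩
  rw [out_congr hcmp]
  refine hord _ r hr hrR ?_
  simp only [if_pos hrW]
  exact h0

theorem lower {G : Type} [CommGroup G] [Finite G] [IsCyclic G] (R S q k : ℕ)
    (hG : Nat.card G = R * S) (hRS : Nat.Coprime R S) (P : Finset ℕ) (hRP : R = ∏ A ∈ P, A)
    (hPc : (P : Set ℕ).Pairwise Nat.Coprime) (h2 : ∀ A ∈ P, 2 ≤ A.primeFactors.card)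
    (hbig : ∀ r : ℕ, r.Prime → r ∣ R → (k * (q + 1)) ^ 2 < r)
    (act : Fin k → List (List Bool) → ℤ × ℤ)
    (hnf : ∀ A ∈ P, ∀ i, ∀ w ∈ hist (act i) (freeEq R S) (q + 1),
      ∀ w' ∈ hist (act i) (freeEq R S) (q + 1),
      (Int.gcd (Int.gcd (w.1 - w'.1) (w.2 - w'.2)) A = 1 ∨
        Int.gcd (Int.gcd (w.1 - w'.1) (w.2 - w'.2)) A = A) ∧
      ∀ j, (Int.gcd ((w.1 - w'.1) * (output (act j) (freeEq R S) q).2 -
          (w.2 - w'.2) * (output (act j) (freeEq R S) q).1) A = 1 ∨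
        Int.gcd ((w.1 - w'.1) * (output (act j) (freeEq R S) q).2 -
          (w.2 - w'.2) * (output (act j) (freeEq R S) q).1) A = A)) :
    ∃ g h : G, Subgroup.closure {g, h} = ⊤ ∧ ∃ F : Finset (Fin k),
      min k R.primeFactors.card ≤ F.card ∧ ∀ i ∈ F,
      ¬ R ∣ orderOf (g ^ (output (act i) (groupEq g h) q).1 *
        h ^ (output (act i) (groupEq g h) q).2) := by
  classical
  have hA0 : ∀ A ∈ P, A ≠ 0 := fun A hA h => by have := h2 A hA; rw [h] at this; simp at this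
  have hR0 : R ≠ 0 := by rw [hRP]; exact Finset.prod_ne_zero_iff.2 hA0
  have hAR : ∀ A ∈ P, A ∣ R := fun A hA => by rw [hRP]; exact Finset.dvd_prod_of_mem _ hA
  have hpA : ∀ r : ℕ, r.Prime → r ∣ R → ∃ A ∈ P, r ∣ A := fun r hr hrR => by
    rw [hRP] at hrR
    exact (hr.prime.dvd_finset_prod_iff _).1 hrR
  have huniq : ∀ r : ℕ, r.Prime → ∀ A ∈ P, ∀ B ∈ P, r ∣ A → r ∣ B → A = B := by
    intro r hr A hA B hB h3 h4
    by_contra hne
    have h5 := hPc hA hB hne
    have h6 := Nat.dvd_gcd h3 h4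
    rw [h5] at h6
    exact hr.one_lt.ne' (Nat.dvd_one.1 h6)
  have hre : ∀ r : ℕ, r.Prime → r ∣ R → (r : ℤ) ∣ ((r ^ R.factorization r : ℕ) : ℤ) := by
    intro r hr hrR
    exact Int.natCast_dvd_natCast.2 (dvd_pow_self r (hr.factorization_pos_of_dvd hR0 hrR).ne')
  set o : Fin k → ℤ × ℤ := fun i => output (act i) (freeEq R S) q with ho
  -- a difference divisible by one prime factor of a part is divisible by the part
  have hone : ∀ A ∈ P, ∀ i, ∀ w ∈ hist (act i) (freeEq R S) (q + 1),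
      ∀ w' ∈ hist (act i) (freeEq R S) (q + 1), ∀ r : ℕ, r.Prime → r ∣ A →
      (r : ℤ) ∣ w.1 - w'.1 ∧ (r : ℤ) ∣ w.2 - w'.2 →
        (A : ℤ) ∣ w.1 - w'.1 ∧ (A : ℤ) ∣ w.2 - w'.2 := by
    intro A hA i w hw w' hw' r hr hrA ⟨h3, h4⟩
    have h5 : (r : ℤ) ∣ (Int.gcd (Int.gcd (w.1 - w'.1) (w.2 - w'.2)) A : ℤ) :=
      Int.dvd_coe_gcd (Int.dvd_coe_gcd h3 h4) (Int.natCast_dvd_natCast.2 hrA)
    rcases (hnf A hA i w hw w' hw').1 with h6 | h6
    · rw [h6] at h5
      have : r ∣ 1 := by exact_mod_cast h5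
      exact absurd (Nat.dvd_one.1 this) hr.one_lt.ne'
    · have h7 : (A : ℤ) ∣ (Int.gcd (w.1 - w'.1) (w.2 - w'.2) : ℤ) := by
        have := Int.gcd_dvd_left (Int.gcd (w.1 - w'.1) (w.2 - w'.2) : ℤ) (A : ℤ)
        rwa [h6] at this
      exact ⟨h7.trans (Int.gcd_dvd_left _ _), h7.trans (Int.gcd_dvd_right _ _)⟩
  have hdirs : ∀ (r : ℕ) (v : ℤ × ℤ), ∃ ab : ℕ × ℕ, r.Prime →
      ((ab.1 : ZMod r) ≠ 0 ∨ (ab.2 : ZMod r) ≠ 0) ∧
      ((v.1 : ℤ) : ZMod r) * ab.1 + ((v.2 : ℤ) : ZMod r) * ab.2 = 0 := by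
    intro r v
    by_cases hr : r.Prime
    · have : Fact r.Prime := ⟨hr⟩
      obtain ⟨ab, h3⟩ := exists_dir r v
      exact ⟨ab, fun _ => h3⟩
    · exact ⟨(0, 0), fun h => absurd h hr⟩
  choose dirv hdirv using hdirs
  -- the seeds to be killed, one for each prime in `U`
  obtain ⟨U, hU, hUc⟩ := Finset.exists_subset_card_eq
    (min_le_right k R.primeFactors.card)
  obtain ⟨e⟩ : Nonempty (U ↪ Fin k) := by
    apply Function.Embedding.nonempty_of_card_le
    simp [hUc]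
  set v₀ : ℕ → ℤ × ℤ := fun r => if hr : r ∈ U then o (e ⟨r, hr⟩) else (0, 0) with hv₀
  have hvr : ∀ (r : ℕ) (hr : r ∈ U), v₀ r = o (e ⟨r, hr⟩) := fun r hr => by
    rw [hv₀]; simp only [dif_pos hr]
  -- one part
  have hpart : ∀ A : ℕ, ∃ (W : Finset ℕ) (v : ℕ → ℤ × ℤ), A ∈ P → W ⊆ A.primeFactors ∧
      (∀ i, ∀ w ∈ hist (act i) (freeEq R S) (q + 1), ∀ w' ∈ hist (act i) (freeEq R S) (q + 1),
        (∀ r ∈ W, ((r ^ R.factorization r : ℕ) : ℤ) ∣
          (w.1 - w'.1) * ((dirv r (v r)).1 : ℤ) + (w.2 - w'.2) * ((dirv r (v r)).2 : ℤ)) →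
        (∀ r ∈ A.primeFactors, r ∉ W → ((r ^ R.factorization r : ℕ) : ℤ) ∣ w.1 - w'.1 ∧
          ((r ^ R.factorization r : ℕ) : ℤ) ∣ w.2 - w'.2) →
          (A : ℤ) ∣ w.1 - w'.1 ∧ (A : ℤ) ∣ w.2 - w'.2) ∧
      (∀ (r : ℕ) (hr : r ∈ U), r ∣ A → ∃ l ∈ W,
        ((o (e ⟨r, hr⟩)).1 : ZMod l) * (dirv l (v l)).1 +
          ((o (e ⟨r, hr⟩)).2 : ZMod l) * (dirv l (v l)).2 = 0) := by
    intro A
    by_cases hA : A ∈ P
    swap
    · exact ⟨∅, fun _ => (0, 0), fun h => absurd h hA⟩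
    by_cases hbad : A.primeFactors ⊆ U ∧ ∃ i, ∃ w ∈ hist (act i) (freeEq R S) (q + 1),
        ∃ w' ∈ hist (act i) (freeEq R S) (q + 1),
        (∀ r ∈ A.primeFactors, ((r ^ R.factorization r : ℕ) : ℤ) ∣
          (w.1 - w'.1) * ((dirv r (v₀ r)).1 : ℤ) + (w.2 - w'.2) * ((dirv r (v₀ r)).2 : ℤ)) ∧
        ¬ ((A : ℤ) ∣ w.1 - w'.1 ∧ (A : ℤ) ∣ w.2 - w'.2)
    · obtain ⟨hAU, i, w, hw, w', hw', h3, h4⟩ := hbad
      have h5 : ∀ r : ℕ, r.Prime → r ∣ A →
          ¬ ((r : ℤ) ∣ w.1 - w'.1 ∧ (r : ℤ) ∣ w.2 - w'.2) := by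
        intro r hr hrR hcon
        exact h4 (hone A hA i w hw w' hw' r hr hrR hcon)
      -- the outputs are parallel to the difference
      have h6 : ∀ (r : ℕ) (hr : r ∈ U), r ∣ A →
          (A : ℤ) ∣ (w.1 - w'.1) * (o (e ⟨r, hr⟩)).2 - (w.2 - w'.2) * (o (e ⟨r, hr⟩)).1 := by
        intro r hr hrA
        have hrp := Nat.prime_of_mem_primeFactors (hU hr)
        have hrR := Nat.dvd_of_mem_primeFactors (hU hr)
        have : Fact r.Prime := ⟨hrp⟩
        have e1 := (ZMod.intCast_zmod_eq_zero_iff_dvd _ _).2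
          ((hre r hrp hrR).trans (h3 r (Nat.mem_primeFactors.2 ⟨hrp, hrA, hA0 A hA⟩)))
        have e2 := (hdirv r (v₀ r) hrp).2
        have e3 := (hdirv r (v₀ r) hrp).1
        rw [hvr r hr] at e1 e2 e3
        set a : ZMod r := ((dirv r (o (e ⟨r, hr⟩))).1 : ZMod r)
        set b : ZMod r := ((dirv r (o (e ⟨r, hr⟩))).2 : ZMod r)
        have e4 : (((w.1 - w'.1) * (o (e ⟨r, hr⟩)).2 - (w.2 - w'.2) * (o (e ⟨r, hr⟩)).1 : ℤ) :
            ZMod r) = 0 := by
          push_cast at e1 ⊢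
          rcases e3 with e3 | e3
          · apply mul_left_cancel₀ e3
            linear_combination (((o (e ⟨r, hr⟩)).2 : ℤ) : ZMod r) * e1 -
              (((w.2 : ℤ) : ZMod r) - ((w'.2 : ℤ) : ZMod r)) * e2
          · apply mul_left_cancel₀ e3
            linear_combination (((w.1 : ℤ) : ZMod r) - ((w'.1 : ℤ) : ZMod r)) * e2 -
              (((o (e ⟨r, hr⟩)).1 : ℤ) : ZMod r) * e1
        have e5 := (ZMod.intCast_zmod_eq_zero_iff_dvd _ _).1 e4
        rcases (hnf A hA i w hw w' hw').2 (e ⟨r, hr⟩) with h7 | h7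
        · exfalso
          have h8 : (r : ℤ) ∣ (Int.gcd ((w.1 - w'.1) * (o (e ⟨r, hr⟩)).2 -
              (w.2 - w'.2) * (o (e ⟨r, hr⟩)).1) A : ℤ) :=
            Int.dvd_coe_gcd e5 (Int.natCast_dvd_natCast.2 hrA)
          rw [h7] at h8
          have : r ∣ 1 := by exact_mod_cast h8
          exact hrp.one_lt.ne' (Nat.dvd_one.1 this)
        · have h8 := Int.gcd_dvd_left ((w.1 - w'.1) * (o (e ⟨r, hr⟩)).2 -
              (w.2 - w'.2) * (o (e ⟨r, hr⟩)).1) (A : ℤ)
          rw [h7] at h8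
          exact h8
      -- kill all of them at one prime
      have h2A := h2 A hA
      obtain ⟨l, hl⟩ : A.primeFactors.Nonempty := Finset.card_pos.1 (by omega)
      have hlp := Nat.prime_of_mem_primeFactors hl
      have hlA := Nat.dvd_of_mem_primeFactors hl
      have : Fact l.Prime := ⟨hlp⟩
      obtain ⟨l', hl', hne⟩ := Finset.exists_mem_ne (by omega : 1 < A.primeFactors.card) l
      have hl'p := Nat.prime_of_mem_primeFactors hl'
      have hl'A := Nat.dvd_of_mem_primeFactors hl'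
      refine ⟨{l}, fun _ => (w.1 - w'.1, w.2 - w'.2), fun _ => ⟨?_, ?_, ?_⟩⟩
      · intro x hx; rw [Finset.mem_singleton] at hx; rw [hx]; exact hl
      · intro i₁ w₁ hw₁ w₁' hw₁' _ h8
        have h9 := h8 l' hl' (by simpa using hne)
        exact hone A hA i₁ w₁ hw₁ w₁' hw₁' l' hl'p hl'A
          ⟨(hre l' hl'p (hl'A.trans (hAR A hA))).trans h9.1,
            (hre l' hl'p (hl'A.trans (hAR A hA))).trans h9.2⟩
      · intro r hr hrA
        refine ⟨l, Finset.mem_singleton_self l, ?_⟩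
        have e1 := (hdirv l (w.1 - w'.1, w.2 - w'.2) hlp).2
        have e2 : (((w.1 - w'.1) * (o (e ⟨r, hr⟩)).2 - (w.2 - w'.2) * (o (e ⟨r, hr⟩)).1 : ℤ) :
            ZMod l) = 0 :=
          (ZMod.intCast_zmod_eq_zero_iff_dvd _ _).2
            ((Int.natCast_dvd_natCast.2 hlA).trans (h6 r hr hrA))
        have e3 : ((w.1 - w'.1 : ℤ) : ZMod l) ≠ 0 ∨ ((w.2 - w'.2 : ℤ) : ZMod l) ≠ 0 := by
          by_contra hc
          push Not at hc
          exact h5 l hlp hlA ⟨(ZMod.intCast_zmod_eq_zero_iff_dvd _ _).1 hc.1,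
            (ZMod.intCast_zmod_eq_zero_iff_dvd _ _).1 hc.2⟩
        simp only at e1
        push_cast at e1 e2 e3 ⊢
        rcases e3 with e3 | e3
        · apply mul_left_cancel₀ e3
          linear_combination (((o (e ⟨r, hr⟩)).1 : ℤ) : ZMod l) * e1 +
            ((dirv l (w.1 - w'.1, w.2 - w'.2)).2 : ZMod l) * e2
        · apply mul_left_cancel₀ e3
          linear_combination (((o (e ⟨r, hr⟩)).2 : ℤ) : ZMod l) * e1 -
            ((dirv l (w.1 - w'.1, w.2 - w'.2)).1 : ZMod l) * e2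
    · refine ⟨A.primeFactors.filter (fun r => r ∈ U), v₀, fun _ => ⟨Finset.filter_subset _ _,
        ?_, ?_⟩⟩
      · intro i w hw w' hw' h3 h4
        by_cases hAU : A.primeFactors ⊆ U
        · by_contra h5
          exact hbad ⟨hAU, i, w, hw, w', hw', fun r hr =>
            h3 r (Finset.mem_filter.2 ⟨hr, hAU hr⟩), h5⟩
        · obtain ⟨r, hr, hrU⟩ := Finset.not_subset.1 hAU
          have h5 := h4 r hr (fun h => hrU (Finset.mem_filter.1 h).2)
          have hrp := Nat.prime_of_mem_primeFactors hr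
          have hrA := Nat.dvd_of_mem_primeFactors hr
          exact hone A hA i w hw w' hw' r hrp hrA
            ⟨(hre r hrp (hrA.trans (hAR A hA))).trans h5.1,
              (hre r hrp (hrA.trans (hAR A hA))).trans h5.2⟩
      · intro r hr hrA
        have hrp := Nat.prime_of_mem_primeFactors (hU hr)
        refine ⟨r, Finset.mem_filter.2 ⟨Nat.mem_primeFactors.2 ⟨hrp, hrA, hA0 A hA⟩, hr⟩, ?_⟩
        have h5 := (hdirv r (v₀ r) hrp).2
        rw [hvr r hr] at h5 ⊢
        exact h5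
  choose W v hWv using hpart
  have hex : ∀ r : ℕ, ∃ A : ℕ, r.Prime → r ∣ R → A ∈ P ∧ r ∣ A := by
    intro r
    by_cases h : r.Prime ∧ r ∣ R
    · obtain ⟨A, hA, hrA⟩ := hpA r h.1 h.2
      exact ⟨A, fun _ _ => ⟨hA, hrA⟩⟩
    · exact ⟨0, fun h1 h2 => absurd ⟨h1, h2⟩ h⟩
  choose part hpartr using hex
  have hpeq : ∀ A ∈ P, ∀ r ∈ A.primeFactors, part r = A := by
    intro A hA r hr
    have hrp := Nat.prime_of_mem_primeFactors hr
    have hrA := Nat.dvd_of_mem_primeFactors hr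
    have h3 := hpartr r hrp (hrA.trans (hAR A hA))
    exact huniq r hrp _ h3.1 A hA h3.2 hrA
  obtain ⟨g, h, h3, h4⟩ := kill (G := G) R S q k hG hRS hR0 hbig act (P.biUnion W)
    (fun r => dirv r (v (part r) r)) (fun r hr _ _ => (hdirv r _ hr).1) (by
      intro i w hw w' hw' h5 h6
      have hall : ∀ A ∈ P, (A : ℤ) ∣ w.1 - w'.1 ∧ (A : ℤ) ∣ w.2 - w'.2 := by
        intro A hA
        obtain ⟨hWA, hc, -⟩ := hWv A hA
        refine hc i w hw w' hw' (fun r hr => ?_) (fun r hr hrW => ?_)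
        · have hrA := hWA hr
          have hrp := Nat.prime_of_mem_primeFactors hrA
          have h7 := h5 r hrp ((Nat.dvd_of_mem_primeFactors hrA).trans (hAR A hA))
            (Finset.mem_biUnion.2 ⟨A, hA, hr⟩)
          rw [hpeq A hA r hrA] at h7
          exact h7
        · have hrp := Nat.prime_of_mem_primeFactors hr
          refine h6 r hrp ((Nat.dvd_of_mem_primeFactors hr).trans (hAR A hA)) fun hcon => ?_
          obtain ⟨B, hB, hrB⟩ := Finset.mem_biUnion.1 hcon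
          have h8 := huniq r hrp B hB A hA
            (Nat.dvd_of_mem_primeFactors ((hWv B hB).1 hrB)) (Nat.dvd_of_mem_primeFactors hr)
          rw [h8] at hrB
          exact hrW hrB
      have hcop' : (P : Set ℕ).Pairwise (Function.onFun IsCoprime (fun A : ℕ => (A : ℤ))) := by
        intro A hA B hB hne
        exact Nat.isCoprime_iff_coprime.2 (hPc hA hB hne)
      rw [hRP]
      push_cast
      exact ⟨Finset.prod_dvd_of_coprime hcop' fun A hA => (hall A hA).1,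
        Finset.prod_dvd_of_coprime hcop' fun A hA => (hall A hA).2⟩)
  refine ⟨g, h, h3, Finset.univ.image e, ?_, fun i hi => ?_⟩
  · rw [Finset.card_image_of_injective _ e.injective, Finset.card_univ, Fintype.card_coe, hUc]
  · rw [Finset.mem_image] at hi
    obtain ⟨⟨r, hr⟩, _, rfl⟩ := hi
    have hrp := Nat.prime_of_mem_primeFactors (hU hr)
    have hrR := Nat.dvd_of_mem_primeFactors (hU hr)
    obtain ⟨hA, hrA⟩ := hpartr r hrp hrR
    obtain ⟨hWA, -, hk⟩ := hWv (part r) hA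
    obtain ⟨l, hl, h5⟩ := hk r hr hrA
    have hlA := hWA hl
    have hlp := Nat.prime_of_mem_primeFactors hlA
    refine h4 _ l hlp ((Nat.dvd_of_mem_primeFactors hlA).trans (hAR _ hA))
      (Finset.mem_biUnion.2 ⟨part r, hA, hl⟩) ?_
    rw [hpeq _ hA l hlA]
    exact h5

/-- an element whose order is not a multiple of `R` is killed at some prime factor of `R` -/
theorem exists_killer {G : Type} [CommGroup G] [Finite G] (R S : ℕ)
    (hG : Nat.card G = R * S) (hRS : Nat.Coprime R S) (z : G) (hz : ¬ R ∣ orderOf z) :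
    ∃ r ∈ R.primeFactors, z ^ (R * S / r) = 1 := by
  have hcard : 0 < R * S := hG ▸ Nat.card_pos
  have hR0 : R ≠ 0 := fun h => by rw [h, zero_mul] at hcard; exact lt_irrefl _ hcard
  obtain ⟨c, hc⟩ : orderOf z ∣ R * S := hG ▸ orderOf_dvd_natCard z
  -- some prime of R divides c
  have h1 : ¬ Nat.Coprime R c := by
    intro h
    apply hz
    have : R ∣ orderOf z * c := ⟨S, hc.symm⟩
    exact Nat.Coprime.dvd_of_dvd_mul_right h this
  obtain ⟨r, hr, hrR, hrc⟩ := Nat.Prime.not_coprime_iff_dvd.1 h1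
  refine ⟨r, Nat.mem_primeFactors.2 ⟨hr, hrR, hR0⟩, ?_⟩
  obtain ⟨d, hd⟩ := hrc
  rw [← orderOf_dvd_iff_pow_eq_one, hc, hd]
  refine ⟨d, ?_⟩
  rw [mul_left_comm, Nat.mul_div_cancel_left _ hr.pos]

theorem upper {G : Type} [CommGroup G] [Finite G] [IsCyclic G] (R S k : ℕ)
    (hG : Nat.card G = R * S) (hRS : Nat.Coprime R S)
    (hk : ∀ r : ℕ, r.Prime → r ∣ R → k ≤ r) (g h : G) (hgh : Subgroup.closure {g, h} = ⊤)
    (F : Finset (Fin k)) (hF : ∀ t ∈ F, ¬ R ∣ orderOf (g * h ^ (t : ℕ))) :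
    F.card ≤ R.primeFactors.card := by
  classical
  have hex : ∀ t : Fin k, ∃ r : ℕ, t ∈ F → r ∈ R.primeFactors ∧
      (g * h ^ (t : ℕ)) ^ (R * S / r) = 1 := by
    intro t
    by_cases ht : t ∈ F
    · obtain ⟨r, hr, h1⟩ := exists_killer R S hG hRS _ (hF t ht)
      exact ⟨r, fun _ => ⟨hr, h1⟩⟩
    · exact ⟨0, fun h => absurd h ht⟩
  choose ρ hρ using hex
  refine Finset.card_le_card_of_injOn ρ (fun t ht => (hρ t ht).1) ?_
  have key : ∀ t ∈ F, ∀ t' ∈ F, ρ t = ρ t' → (t : ℕ) < t' → False := by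
    intro t ht t' ht' heq hlt
    obtain ⟨h1, h2⟩ := hρ t ht
    obtain ⟨-, h3⟩ := hρ t' ht'
    rw [← heq] at h3
    set r := ρ t with hr
    have hrp := Nat.prime_of_mem_primeFactors h1
    have hrR := Nat.dvd_of_mem_primeFactors h1
    have hR0 : R ≠ 0 := (Nat.mem_primeFactors.1 h1).2.2
    set M := R * S / r with hM
    have hMr : r * M = R * S := Nat.mul_div_cancel' (hrR.trans (Dvd.intro _ rfl))
    rw [mul_pow] at h2 h3
    -- h ^ ((t' - t) M) = 1
    have h4 : (h ^ M) ^ ((t' : ℕ) - t) = 1 := by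
      have e1 : (h ^ (t' : ℕ)) ^ M = (h ^ (t : ℕ)) ^ M * (h ^ M) ^ ((t' : ℕ) - t) := by
        rw [← pow_mul, ← pow_mul, ← pow_mul, ← pow_add]
        congr 1
        rw [mul_comm M, ← add_mul]
        congr 1
        omega
      rw [e1, ← mul_assoc, h2, one_mul] at h3
      exact h3
    have h5 : (h ^ M) ^ r = 1 := by
      rw [← pow_mul, mul_comm, hMr, ← hG]
      exact pow_card_eq_one'
    have hcop : Nat.Coprime ((t' : ℕ) - t) r := by
      rw [Nat.coprime_comm, Nat.Prime.coprime_iff_not_dvd hrp]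
      intro hd
      have h6 := Nat.le_of_dvd (by omega) hd
      have h7 := hk r hrp hrR
      have h8 := t'.2
      omega
    have h6 : h ^ M = 1 := by
      have h7 := Nat.dvd_gcd (orderOf_dvd_of_pow_eq_one h4) (orderOf_dvd_of_pow_eq_one h5)
      rw [hcop] at h7
      exact orderOf_eq_one_iff.1 (Nat.dvd_one.1 h7)
    have h7 : g ^ M = 1 := by
      rw [← pow_mul, mul_comm (t : ℕ), pow_mul, h6, one_pow, mul_one] at h2
      exact h2
    -- everything is killed
    have h8 : ∀ z : G, z ^ M = 1 := by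
      intro z
      have hz : z ∈ Subgroup.closure ({g, h} : Set G) := by rw [hgh]; trivial
      induction hz using Subgroup.closure_induction with
      | mem x hx =>
        rcases hx with rfl | hx
        · exact h7
        · rw [Set.mem_singleton_iff] at hx; rw [hx]; exact h6
      | one => exact one_pow _
      | mul a b _ _ ha hb => rw [mul_pow, ha, hb, one_mul]
      | inv a _ ha => rw [inv_pow, ha, inv_one]
    obtain ⟨γ, hγ⟩ := IsCyclic.exists_generator (α := G)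
    have h9 := orderOf_dvd_of_pow_eq_one (h8 γ)
    rw [orderOf_eq_card_of_forall_mem_zpowers hγ, hG] at h9
    have hcard : 0 < R * S := hG ▸ Nat.card_pos
    have hM0 : 0 < M := by
      rcases Nat.eq_zero_or_pos M with h | h
      · rw [h, mul_zero] at hMr; omega
      · exact h
    have h10 := Nat.le_of_dvd hM0 h9
    have h11 := hrp.two_le
    nlinarith
  intro t ht t' ht' heq
  by_contra hne
  have hne' : (t : ℕ) ≠ t' := fun h => hne (Fin.ext h)
  rcases lt_or_gt_of_ne hne' with h | h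
  · exact key t ht t' ht' heq h
  · exact key t' ht' t ht heq.symm h

end aux

/-- The `k` seeds `act` (with `q` queries each) do not split the part `A` of `R`: in the free runs
(with respect to `R` and `S`) no difference `(D₁, D₂)` of two vectors (queries and output) of one
seed, and no determinant of such a difference with the output of any seed, has a nontrivial greatest
common divisor with `A`. -/
def NoSplit (R S q k : ℕ) (act : Fin k → List (List Bool) → ℤ × ℤ) (A : ℕ) : Prop :=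
  ∀ i, ∀ w ∈ hist (act i) (freeEq R S) (q + 1), ∀ w' ∈ hist (act i) (freeEq R S) (q + 1),
    (Int.gcd (Int.gcd (w.1 - w'.1) (w.2 - w'.2)) A = 1 ∨
      Int.gcd (Int.gcd (w.1 - w'.1) (w.2 - w'.2)) A = A) ∧
    ∀ j, (Int.gcd ((w.1 - w'.1) * (output (act j) (freeEq R S) q).2 -
        (w.2 - w'.2) * (output (act j) (freeEq R S) q).1) A = 1 ∨
      Int.gcd ((w.1 - w'.1) * (output (act j) (freeEq R S) q).2 -
        (w.2 - w'.2) * (output (act j) (freeEq R S) q).1) A = A)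

/-- on input `g`, `h` the output of the algorithm `act` after `q` queries has an order that is not a
multiple of `R` -/
def Fails {G : Type} [Group G] (R q : ℕ) (act : List (List Bool) → ℤ × ℤ) (g h : G) : Prop :=
  ¬ R ∣ orderOf (g ^ (output act (groupEq g h) q).1 * h ^ (output act (groupEq g h) q).2)

open Classical in
/-- **Main theorem.**  Let `G` be a cyclic group of order `R * S`, `R`, `S` coprime, and `R` the
product of a finite set `P` of pairwise coprime parts, each with at least two different prime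
factors.  (1) If all prime factors of `R` are larger than `(k (q + 1)) ^ 2` and `k` deterministic
generic algorithms (the seeds) with `q` queries split none of the parts, then for some pair `g`, `h`
generating `G` at least `min k ω(R)` of them fail to output an element of order divisible by `R`
(in particular a generator of `G`).  (2) If all prime factors of `R` are `≥ k`, the `k` seeds
`t ↦ g * h ^ t` (without queries) split none of the parts and at most `min k ω(R)` of them fail, for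
every pair `g`, `h` generating `G`. -/
theorem result {G : Type} [CommGroup G] [Finite G] [IsCyclic G] (R S k : ℕ)
    (hG : Nat.card G = R * S) (hRS : Nat.Coprime R S) (P : Finset ℕ) (hRP : R = ∏ A ∈ P, A)
    (hP : (P : Set ℕ).Pairwise Nat.Coprime) (h2 : ∀ A ∈ P, 2 ≤ A.primeFactors.card) :
    (∀ q : ℕ, (∀ r : ℕ, r.Prime → r ∣ R → (k * (q + 1)) ^ 2 < r) →
      ∀ act : Fin k → List (List Bool) → ℤ × ℤ, (∀ A ∈ P, NoSplit R S q k act A) →
        ∃ g h : G, Subgroup.closure {g, h} = ⊤ ∧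
          min k R.primeFactors.card ≤
            (Finset.univ.filter (fun i : Fin k => Fails R q (act i) g h)).card) ∧
    ((∀ r : ℕ, r.Prime → r ∣ R → k ≤ r) →
      (∀ A ∈ P, NoSplit R S 0 k (fun t _ => (1, (t : ℕ))) A) ∧
      ∀ g h : G, Subgroup.closure {g, h} = ⊤ →
        (Finset.univ.filter (fun t : Fin k => Fails R 0 (fun _ => (1, (t : ℕ))) g h)).card ≤
          min k R.primeFactors.card) := by
  refine ⟨fun q hbig act hnf => ?_, fun hk => ⟨?_, fun g h hgh => ?_⟩⟩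
  · obtain ⟨g, h, h3, F, h4, h5⟩ := lower (G := G) R S q k hG hRS P hRP hP h2 hbig act
      (fun A hA => hnf A hA)
    refine ⟨g, h, h3, h4.trans (Finset.card_le_card fun i hi => ?_)⟩
    exact Finset.mem_filter.2 ⟨Finset.mem_univ _, h5 i hi⟩
  · intro A _ i w hw w' hw'
    simp only [hist, List.nil_append, List.mem_singleton] at hw hw'
    subst hw hw'
    simp
  · refine le_min ((Finset.card_filter_le _ _).trans (by simp)) ?_
    refine upper R S k hG hRS hk g h hgh _ fun t ht => ?_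
    have h3 := (Finset.mem_filter.1 ht).2
    unfold Fails output at h3
    simpa using h3

end Pool.Agent.Results.MP_18a8a6_lc.GenericSeeds
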