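import Mathlib
import Pool.Agent.W913.PRC

set_option autoImplicit false

/-! # Orders of the integers `∏ a i ^ (t ^ i)` for almost all primes -/

namespace Pool.Agent.Results.MP_18a8a6_lc.IndependentIntegers

open Finset

open Classical in
/-- For multiplicatively independent `a i ≥ 1`, `i < m`, and every `K`, `δ > 0`, `ε > 0`: for all
large `x`, all but at most `x ^ δ` primes `p ≤ x` satisfy: all but at most `(m - 1) / ε` of the
integers `∏ a i ^ (t ^ i)`, `t < K`, have order `> x ^ (δ m / (m + 1) - ε)` modulo `p`. -/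
theorem result (m : ℕ) (a : Fin m → ℕ) (hm : 0 < m)
    (ha : ∀ u v : Fin m → ℕ, ∏ i, a i ^ u i = ∏ i, a i ^ v i → u = v)
    (K : ℕ) (δ ε : ℝ) (hδ : 0 < δ) (hε : 0 < ε) :
    ∃ x₀ : ℕ, ∀ x : ℕ, x₀ ≤ x →
      (#((range (x + 1)).filter (fun p : ℕ => p.Prime ∧ ((m : ℝ) - 1) / ε <
        #((range K).filter (fun t : ℕ =>
          (orderOf ((∏ i : Fin m, a i ^ (t ^ (i : ℕ)) : ℕ) : ZMod p) : ℝ) ≤
            (x : ℝ) ^ (δ * m / (m + 1) - ε))))) : ℝ) ≤ (x : ℝ) ^ δ := by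
  obtain ⟨x₀, h⟩ := Pool.Agent.W913.PR.partA hm a ha K δ ε hδ hε
  refine ⟨x₀, fun x hx => ?_⟩
  convert h x hx
  rfl

end Pool.Agent.Results.MP_18a8a6_lc.IndependentIntegers
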