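import Mathlib
import Pool.Agent.H595R2.PR.Core
import Pool.Agent.H595R2.PR.FEW

set_option autoImplicit false

/-! # Primitive roots at all lengths with the digits of one real number as the only advice -/

namespace Pool.Agent.Results.MP_18a8a6_lc.OneReal

open Finset

/-- `F` is computable in polynomial time: some function on bit strings computed by a Turing machine
(Mathlib's `TM2ComputableInPolyTime`) in polynomially many steps sends the binary digits of `p` to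
the code of the list `F p`. -/
def PolyTimeList (F : ℕ → List ℕ) : Prop :=
  ∃ f : List Bool → List Bool, NPC.PolyTime f ∧ ∀ p : ℕ, f (Nat.bits p) = NPC.bits (F p)

/-- `g` is a primitive root modulo `p` -/
def IsPrimRoot (p g : ℕ) : Prop := orderOf (g : ZMod p) = p - 1

section aux

open H595R2.PR Filter Topology MeasureTheory

theorem prim_of_gen {A C p a : ℕ} (hp : p.Prime) (h : Gen A C p a) (ht : Gam p (p.size ^ A) = ⊤) :
    IsPrimRoot p ((cands A C p).getD a 0) := by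
  have : Fact p.Prime := ⟨hp⟩
  obtain ⟨u, hu1, hu2⟩ := h
  unfold IsPrimRoot
  rw [← hu1, orderOf_units, ← Nat.card_zpowers, hu2, ht, Subgroup.card_top,
    Nat.card_eq_fintype_card, ZMod.card_units]

open Classical in
/-- the number of primes with `n` digits for which the entry with index `i` is not a primitive
root -/
noncomputable def bad (F : ℕ → List ℕ) (n i : ℕ) : ℕ :=
  #{p ∈ range (2 ^ n) | p.Prime ∧ p.size = n ∧ ¬ IsPrimRoot p ((F p).getD i 0)}

open Classical in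
theorem few_bad (B : ℕ) : ∃ A : ℕ, ∃ n₁ : ℕ, ∀ n : ℕ, n₁ ≤ n →
    (#{i ∈ range (n ^ (A + B + 3)) | 2 ^ n < n ^ B * bad (H595R2.PR.cands A (A + B + 3)) n i} : ℝ) ≤
      2 * (n : ℝ) ^ (A + B + 1) := by
  obtain ⟨A, hA⟩ := H595R2.PR.Gam_top (1 / 2) (by norm_num)
  obtain ⟨x₁, hx₁⟩ := hA A le_rfl
  obtain ⟨p₀, hp₀⟩ := H595R2.PR.core A (A + B + 3)
  refine ⟨A, ?_⟩
  set F := H595R2.PR.cands A (A + B + 3) with hF
  have hmain : ∀ p : ℕ, p₀ ≤ p → p.Prime → H595R2.PR.Gam p (p.size ^ A) = ⊤ →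
      #{i ∈ range (p.size ^ (A + B + 3)) | ¬ IsPrimRoot p ((F p).getD i 0)} ≤
        p.size ^ (A + 1) := by
    intro p hp hpp ht
    refine le_trans (card_le_card ?_) ((hp₀ p hp hpp).trans (by rw [pow_succ]))
    intro i hi
    obtain ⟨h1, h2⟩ := mem_filter.1 hi
    exact mem_filter.2 ⟨h1, fun hg => h2 (prim_of_gen hpp hg ht)⟩
  have hev1 : ∀ᶠ n : ℕ in atTop, (n : ℝ) ^ (B + (A + B + 3)) ≤ 1 * ((2 : ℝ) ^ (1 / 2 : ℝ)) ^ n := by
    have h2 := (isLittleO_pow_const_const_pow_of_one_lt (R := ℝ) (B + (A + B + 3))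
      (r := (2 : ℝ) ^ (1 / 2 : ℝ)) (Real.one_lt_rpow (by norm_num) (by norm_num)))
    have h3 := h2.bound (c := 1) (by norm_num)
    filter_upwards [h3] with n hn
    rwa [Real.norm_of_nonneg (by positivity), Real.norm_of_nonneg (by positivity)] at hn
  have hev2 : ∀ᶠ n : ℕ in atTop, max x₁ p₀ ≤ 2 ^ (n - 1) :=
    ((tendsto_pow_atTop_atTop_of_one_lt (by norm_num : 1 < 2)).comp
      (tendsto_sub_atTop_nat 1)).eventually_ge_atTop _
  obtain ⟨n₁, hn₁⟩ := eventually_atTop.1 (hev1.and (hev2.and (eventually_gt_atTop 2)))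
  refine ⟨n₁, fun n hn => ?_⟩
  obtain ⟨ha, hb, hc⟩ := hn₁ n hn
  set P := (range (2 ^ n)).filter (fun p => p.Prime ∧ p.size = n) with hP
  set X := P.filter (fun p => H595R2.PR.Gam p (p.size ^ A) ≠ ⊤) with hX
  have hXcard : (#X : ℝ) ≤ ((2 : ℝ) ^ n) ^ (1 / 2 : ℝ) := by
    have h1 := hx₁ (2 ^ n) (le_trans (le_trans (le_max_left _ _) hb)
      (Nat.pow_le_pow_right (by norm_num) (by omega)))
    have h2 : #X ≤ #((range (2 ^ n + 1)).filter (fun p => p.Prime ∧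
        H595R2.PR.Gam p (p.size ^ A) ≠ ⊤)) := by
      apply card_le_card
      intro p hp
      rw [hX, hP] at hp
      obtain ⟨h3, h4⟩ := mem_filter.1 hp
      obtain ⟨h5, h6, _⟩ := mem_filter.1 h3
      exact mem_filter.2 ⟨mem_range.2 (by have := mem_range.1 h5; omega), h6, h4⟩
    calc (#X : ℝ) ≤ _ := by exact_mod_cast h2
      _ ≤ ((2 ^ n : ℕ) : ℝ) ^ (1 / 2 : ℝ) := h1
      _ = _ := by push_cast; rfl
  have hPcard : #P ≤ 2 ^ n := (card_filter_le _ _).trans (by rw [card_range])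
  have hdc : ∑ h ∈ range (n ^ (A + B + 3)), bad F n h =
      ∑ p ∈ P, #{h ∈ range (n ^ (A + B + 3)) | ¬ IsPrimRoot p ((F p).getD h 0)} := by
    unfold bad
    simp_rw [card_filter, hP, sum_filter]
    rw [sum_comm]
    refine sum_congr rfl fun p _ => ?_
    by_cases h : p.Prime ∧ p.size = n
    · rw [if_pos h]
      refine sum_congr rfl fun i _ => ?_
      simp [h.1, h.2]
    · rw [if_neg h]
      apply sum_eq_zero
      intro i _
      rw [if_neg]
      rintro ⟨h1, h2, _⟩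
      exact h ⟨h1, h2⟩
  have hup : ∑ p ∈ P, #{h ∈ range (n ^ (A + B + 3)) | ¬ IsPrimRoot p ((F p).getD h 0)} ≤
      #X * n ^ (A + B + 3) + 2 ^ n * n ^ (A + 1) := by
    have h1 : ∀ p ∈ P, #{h ∈ range (n ^ (A + B + 3)) | ¬ IsPrimRoot p ((F p).getD h 0)} ≤
        (if p ∈ X then n ^ (A + B + 3) else 0) + n ^ (A + 1) := by
      intro p hp
      obtain ⟨h2, h3, h4⟩ := mem_filter.1 hp
      by_cases h5 : p ∈ X
      · rw [if_pos h5]
        refine le_trans ((card_filter_le _ _).trans (by rw [card_range])) (Nat.le_add_right _ _)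
      · rw [if_neg h5, zero_add]
        have h6 : H595R2.PR.Gam p (p.size ^ A) = ⊤ := by
          by_contra h7
          exact h5 (mem_filter.2 ⟨hp, h7⟩)
        have h8 : p₀ ≤ p := by
          refine le_trans (le_trans (le_max_right _ _) hb) ?_
          apply Nat.lt_size.1
          omega
        have h9 := hmain p h8 h3 h6
        rw [h4] at h9
        exact h9
    refine (sum_le_sum h1).trans ?_
    rw [sum_add_distrib, sum_const, smul_eq_mul, sum_ite_mem, sum_const, smul_eq_mul]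
    have h10 : #(P ∩ X) ≤ #X := card_le_card inter_subset_right
    exact Nat.add_le_add (Nat.mul_le_mul_right _ h10) (Nat.mul_le_mul_right _ hPcard)
  rw [← hdc] at hup
  set E := (range (n ^ (A + B + 3))).filter (fun i => 2 ^ n < n ^ B * bad F n i) with hE
  have hlow : #E * 2 ^ n ≤ n ^ B * ∑ h ∈ range (n ^ (A + B + 3)), bad F n h := by
    calc #E * 2 ^ n = ∑ i ∈ E, 2 ^ n := by rw [sum_const, smul_eq_mul]
      _ ≤ ∑ i ∈ E, n ^ B * bad F n i := sum_le_sum fun i hi => (mem_filter.1 hi).2.le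
      _ ≤ ∑ i ∈ range (n ^ (A + B + 3)), n ^ B * bad F n i :=
          sum_le_sum_of_subset (filter_subset _ _)
      _ = _ := by rw [mul_sum]
  have h20 := hlow.trans (Nat.mul_le_mul_left _ hup)
  have h21 : ((#E : ℝ) * 2 ^ n) ≤
      (n : ℝ) ^ B * (#X * (n : ℝ) ^ (A + B + 3) + 2 ^ n * (n : ℝ) ^ (A + 1)) := by
    exact_mod_cast h20
  have hn3 : (1 : ℝ) ≤ n := by
    have : 1 ≤ n := by omega
    exact_mod_cast this
  have h22 : ((2 : ℝ) ^ n) ^ (1 / 2 : ℝ) = ((2 : ℝ) ^ (1 / 2 : ℝ)) ^ n := by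
    rw [← Real.rpow_natCast, ← Real.rpow_natCast, ← Real.rpow_mul (by norm_num),
      ← Real.rpow_mul (by norm_num), mul_comm]
  have h23 : ((2 : ℝ) ^ (1 / 2 : ℝ)) ^ n * ((2 : ℝ) ^ (1 / 2 : ℝ)) ^ n = 2 ^ n := by
    rw [← mul_pow, ← Real.rpow_add (by norm_num)]
    norm_num
  have h24 : (n : ℝ) ^ B * (#X * (n : ℝ) ^ (A + B + 3)) ≤ 2 ^ n := by
    rw [h22] at hXcard
    have h25 : (0 : ℝ) ≤ #X := by positivity
    calc (n : ℝ) ^ B * (#X * (n : ℝ) ^ (A + B + 3)) = (n : ℝ) ^ (B + (A + B + 3)) * #X := by ring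
      _ ≤ (1 * ((2 : ℝ) ^ (1 / 2 : ℝ)) ^ n) * ((2 : ℝ) ^ (1 / 2 : ℝ)) ^ n :=
          mul_le_mul ha hXcard h25 (by positivity)
      _ = 2 ^ n := by rw [one_mul, h23]
  have h26 : (1 : ℝ) ≤ (n : ℝ) ^ (A + B + 1) := one_le_pow₀ hn3
  have h27 : (n : ℝ) ^ B * (2 ^ n * (n : ℝ) ^ (A + 1)) = 2 ^ n * (n : ℝ) ^ (A + B + 1) := by ring
  have h28 : (0 : ℝ) < 2 ^ n := by positivity
  have h29 : (#E : ℝ) * 2 ^ n ≤ (2 * (n : ℝ) ^ (A + B + 1)) * 2 ^ n := by
    nlinarith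
  exact le_of_mul_le_mul_right h29 h28

end aux

open Classical MeasureTheory in
/-- For every `B` there are `C` and a polynomial-time computable list `F p` of `n ^ C` numbers,
`n = size p`, such that for almost every real number `θ ∈ [0, 1)` and all large `n` the following
holds: the entry of `F p` whose index is the number formed by the first `C * log₂ n` binary digits
of `θ` is a primitive root modulo `p` for all but at most `2 ^ n / n ^ B` of the primes `p` with `n`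
binary digits. -/
theorem result (B : ℕ) :
    ∃ (C : ℕ) (F : ℕ → List ℕ), PolyTimeList F ∧ (∀ p : ℕ, (F p).length = p.size ^ C) ∧
      ∀ᵐ θ : ℝ, 0 ≤ θ → θ < 1 → ∃ n₀ : ℕ, ∀ n : ℕ, n₀ ≤ n →
        ⌊θ * 2 ^ (C * Nat.log 2 n)⌋₊ < n ^ C ∧
        n ^ B * #{p ∈ range (2 ^ n) | p.Prime ∧ p.size = n ∧
          ¬ IsPrimRoot p ((F p).getD ⌊θ * 2 ^ (C * Nat.log 2 n)⌋₊ 0)} ≤ 2 ^ n := by
  obtain ⟨A, n₁, hn₁⟩ := few_bad B
  set C := A + B + 3 with hC
  set F := H595R2.PR.cands A C with hF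
  refine ⟨C, F, H595R2.PR.polyTime_cands A C, fun p => by simp [hF, H595R2.PR.cands], ?_⟩
  set E : ℕ → Finset ℕ := fun n =>
    (range (n ^ C)).filter (fun i => 2 ^ n < n ^ B * bad F n i) with hE
  set m : ℕ → ℕ := fun n => C * Nat.log 2 n with hm
  set T : ℕ → Set ℝ := fun n => if n₁ ≤ n ∧ 1 ≤ n then
    {θ : ℝ | 0 ≤ θ ∧ ⌊θ * 2 ^ (m n)⌋₊ ∈ E n} else ∅ with hT
  have hmeas : ∀ n : ℕ, volume (T n) ≤ ENNReal.ofReal (2 ^ (C + 1) * (1 / (n : ℝ) ^ 2)) := by
    intro n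
    rw [hT]
    by_cases hn : n₁ ≤ n ∧ 1 ≤ n
    swap
    · simp only [if_neg hn, measure_empty]; exact bot_le
    simp only [if_pos hn]
    have hpos : (0 : ℝ) < 2 ^ (m n) := by positivity
    have hsub : {θ : ℝ | 0 ≤ θ ∧ ⌊θ * 2 ^ (m n)⌋₊ ∈ E n} ⊆
        ⋃ i ∈ E n, Set.Ico ((i : ℝ) / 2 ^ (m n)) (((i : ℝ) + 1) / 2 ^ (m n)) := by
      rintro θ ⟨h0, h1⟩
      rw [Set.mem_iUnion₂]
      refine ⟨_, h1, ?_⟩
      have h2 : 0 ≤ θ * 2 ^ (m n) := by positivity
      constructor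
      · rw [div_le_iff₀ hpos]; exact Nat.floor_le h2
      · rw [lt_div_iff₀ hpos]; exact Nat.lt_floor_add_one _
    have h3 : volume {θ : ℝ | 0 ≤ θ ∧ ⌊θ * 2 ^ (m n)⌋₊ ∈ E n} ≤
        ∑ i ∈ E n, ENNReal.ofReal (1 / 2 ^ (m n)) := by
      refine (measure_mono hsub).trans ((measure_biUnion_finset_le _ _).trans (le_of_eq ?_))
      refine sum_congr rfl fun i _ => ?_
      rw [Real.volume_Ico]
      congr 1
      field_simp; ring
    refine h3.trans ?_
    rw [sum_const, nsmul_eq_mul, ← ENNReal.ofReal_natCast, ← ENNReal.ofReal_mul (Nat.cast_nonneg _)]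
    apply ENNReal.ofReal_le_ofReal
    have h4 := hn₁ n hn.1
    have hn0 : (0 : ℝ) < n := by exact_mod_cast hn.2
    have h5 : (n : ℝ) ^ C ≤ 2 ^ C * 2 ^ (m n) := by
      have h6 : n < 2 ^ (Nat.log 2 n + 1) := Nat.lt_pow_succ_log_self (by norm_num) n
      have h7 : (n : ℝ) ≤ 2 ^ (Nat.log 2 n + 1) := by exact_mod_cast h6.le
      calc (n : ℝ) ^ C ≤ (2 ^ (Nat.log 2 n + 1)) ^ C := by gcongr
        _ = 2 ^ C * 2 ^ (m n) := by rw [← pow_mul, ← pow_add]; congr 1; rw [hm]; ring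
    have h8 : 1 / (2 : ℝ) ^ (m n) ≤ 2 ^ C / (n : ℝ) ^ C := by
      rw [div_le_div_iff₀ hpos (by positivity)]
      linarith
    calc (#(E n) : ℝ) * (1 / 2 ^ (m n)) ≤ (2 * (n : ℝ) ^ (A + B + 1)) * (2 ^ C / (n : ℝ) ^ C) :=
          mul_le_mul h4 h8 (by positivity) (by positivity)
      _ = 2 ^ (C + 1) * (1 / (n : ℝ) ^ 2) := by
          rw [hC]; field_simp; ring
  have hsum : ∑' n, volume (T n) ≠ ⊤ := by
    refine ne_top_of_le_ne_top ?_ (ENNReal.tsum_le_tsum hmeas)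
    apply Summable.tsum_ofReal_ne_top
    exact (Real.summable_one_div_nat_pow.2 (by norm_num)).mul_left _
  filter_upwards [ae_eventually_notMem hsum] with θ hθ h0 h1
  obtain ⟨n₂, hn₂⟩ := Filter.eventually_atTop.1 hθ
  refine ⟨max n₂ (max n₁ 1), fun n hn => ?_⟩
  have h2 : n₂ ≤ n := le_of_max_le_left hn
  have h3 : n₁ ≤ n := le_of_max_le_left (le_of_max_le_right hn)
  have h4 : 1 ≤ n := le_of_max_le_right (le_of_max_le_right hn)
  have h5 := hn₂ n h2
  rw [hT] at h5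
  simp only [if_pos (And.intro h3 h4), Set.mem_ofPred_eq, not_and] at h5
  have h6 := h5 h0
  have h7 : ⌊θ * 2 ^ (m n)⌋₊ < n ^ C := by
    have h8 : ⌊θ * 2 ^ (m n)⌋₊ < 2 ^ (m n) := by
      rw [Nat.floor_lt (by positivity)]
      push_cast
      have : (0 : ℝ) < 2 ^ (m n) := by positivity
      nlinarith
    have h9 : 2 ^ (m n) ≤ n ^ C := by
      rw [hm]
      calc 2 ^ (C * Nat.log 2 n) = (2 ^ Nat.log 2 n) ^ C := by rw [← pow_mul, mul_comm]
        _ ≤ n ^ C := Nat.pow_le_pow_left (Nat.pow_log_le_self 2 (by omega)) _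
    omega
  refine ⟨h7, ?_⟩
  by_contra hcon
  push Not at hcon
  apply h6
  rw [hE]
  exact mem_filter.2 ⟨mem_range.2 h7, hcon⟩

end Pool.Agent.Results.MP_18a8a6_lc.OneReal
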